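import Mathlib
import Pool.Agent.Lib.helper12.NL

set_option autoImplicit false

open Pool.Agent.Lib.helper12.NL SimpleGraph

namespace Pool.Agent.Results.MP_fdbc88_co.Full

def G : SimpleGraph (Fin 26) := SimpleGraph.fromRel fun a b =>
  (a.1 + 1 = b.1 ∧ b.1 < 25) ∨ (b.1 = 25 ∧ 9 ≤ a.1 ∧ a.1 ≤ 11)

instance : DecidableRel G.Adj := fun a b => by unfold G; infer_instance

def lev (a : Fin 26) : ℕ := if a.1 = 25 then 10 else a.1

def dep (a : Fin 26) : ℕ := lev a - 12 + (12 - lev a)

lemma up : ∀ n (a : Fin 26), dep a = n → G.edist 12 a ≤ n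
  | 0, a, h => by
    have : ∀ a, dep a = 0 → a = 12 := by decide
    simp [this a h]
  | n + 1, a, h => by
    have : ∀ a, dep a ≠ 0 → ∃ b, G.Adj b a ∧ dep b + 1 = dep a := by decide +kernel
    obtain ⟨b, h1, h2⟩ := this a (by omega)
    refine (G.edist_triangle (v := b)).trans ?_
    rw [edist_eq_one_iff_adj.2 h1]
    push_cast
    gcongr
    exact up n b (by omega)

lemma diam_eq : G.ediam = 24 := by
  refine le_antisymm ((ediam_le_two_mul_eccent 12).trans ?_) (le_trans ?_ (edist_le_ediam (u := 0) (v := 24)))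
  · have : G.eccent 12 ≤ 12 := (eccent_le_iff _ _).2 fun a => (up _ a rfl).trans (by
      have : ∀ a, dep a ≤ 12 := by decide
      exact_mod_cast this a)
    exact (mul_le_mul_right this 2).trans (by norm_num)
  · have : ∀ {a b} (w : G.Walk a b), lev b ≤ lev a + w.length := fun w => by
      induction w with
      | nil => simp
      | @cons a b _ h _ ih =>
        have : ∀ a b, G.Adj a b → lev b ≤ lev a + 1 := by decide +kernel
        have := this a b h
        simp only [Walk.length_cons]; omega
    refine le_sInf ?_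
    rintro _ ⟨w, rfl⟩
    exact Nat.cast_le.2 (show 24 ≤ w.length by simpa [lev] using this w)

lemma path : 4 < chiNL (pathGraph 25) := lt_chi fun c h => by
  classical
  let S : Finset (Fin 4 × Finset (Fin 4)) :=
    Finset.univ.filter fun p => p.1 ∉ p.2 ∧ p.2.Nonempty ∧ p.2.card ≤ 2
  have hS : S.card = 24 := by decide +kernel
  have nb : ∀ u : Fin 25, 0 < ((pathGraph 25).neighborFinset u).card ∧
      ((pathGraph 25).neighborFinset u).card ≤ 2 := fun u => by
    have : (pathGraph 25).neighborFinset u =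
        Finset.univ.filter fun v => u.1 + 1 = v.1 ∨ v.1 + 1 = u.1 := by
      ext v; simp [pathGraph_adj]
    rw [this]
    clear this
    revert u
    decide +kernel
  have := Finset.card_le_card_of_injOn (s := Finset.univ) (t := S)
    (fun u => (c u, ((pathGraph 25).neighborFinset u).image c)) (fun u _ => ?_) fun u _ v _ e => ?_
  · simp [hS] at this
  · simp only [S, Finset.coe_filter, Finset.mem_univ, true_and, Set.mem_ofPred_eq]
    refine ⟨fun a => ?_, (Finset.card_pos.1 (nb u).1).image _, Finset.card_image_le.trans (nb u).2⟩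
    obtain ⟨w, a, b⟩ := Finset.mem_image.1 a
    exact h.1 u w (by simpa using a) b.symm
  · by_contra d
    refine h.2 u v d (congrArg Prod.fst e) ?_
    simpa using congrArg (fun p => (p.2 : Set (Fin 4))) e

theorem result : ∃ (V : Type) (_ : Fintype V) (H : SimpleGraph V) (d : ℕ), H.Connected ∧
    H.diam = d ∧ chiNL H < chiNL (pathGraph (d + 1)) := by
  refine ⟨Fin 26, inferInstance, G, 24, connected_of_ediam_ne_top (by simp [diam_eq]),
    by rw [diam, diam_eq]; rfl, (chi_le (c := ![2, 0, 2, 1, 2, 1, 0, 1, 0, 2, 3, 0, 3, 2, 3, 2, 1, 3, 0,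
      3, 0, 2, 3, 1, 3, 1]) ?_).trans_lt path⟩
  rw [isNL_iff]
  decide +kernel

end Pool.Agent.Results.MP_fdbc88_co.Full
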